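import Pool.Agent.Q123.VNum

set_option autoImplicit false

namespace Pool.Agent.Results.MP_a79530_al.LocalVNumberDrops

open MvPolynomial Pool.Agent.Q123

/-- the ideal `(xy, yz, zx, x^N, y^N, z^N)` of `K[x, y, z]` -/
noncomputable def theIdeal (K : Type*) [Field K] (N : ℕ) : Ideal (MvPolynomial (Fin 3) K) :=
  Ideal.span {X 0 * X 1, X 1 * X 2, X 2 * X 0, X 0 ^ N, X 1 ^ N, X 2 ^ N}

/-- the homogeneous maximal ideal `(x, y, z)` -/
noncomputable def theMax (K : Type*) [Field K] : Ideal (MvPolynomial (Fin 3) K) :=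
  Ideal.span (Set.range X)

section

variable {K : Type*} [Field K]

theorem X_eq (i : Fin 3) : (X i : MvPolynomial (Fin 3) K) = monomial (Finsupp.single i 1) 1 := rfl

theorem X_pow_eq (i : Fin 3) (n : ℕ) :
    (X i ^ n : MvPolynomial (Fin 3) K) = monomial (Finsupp.single i n) 1 := by
  rw [X_pow_eq_monomial]

/-- the exponents of the generators -/
def gens (N : ℕ) : Set (Fin 3 →₀ ℕ) :=
  {Finsupp.single 0 1 + Finsupp.single 1 1, Finsupp.single 1 1 + Finsupp.single 2 1,
    Finsupp.single 2 1 + Finsupp.single 0 1, Finsupp.single 0 N, Finsupp.single 1 N,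
    Finsupp.single 2 N}

theorem theIdeal_eq (N : ℕ) : theIdeal K N = Ideal.span ((fun s => monomial s (1 : K)) '' gens N) := by
  unfold theIdeal gens
  congr 1
  simp only [Set.image_insert_eq, Set.image_singleton, X_pow_eq_monomial]
  simp only [X, monomial_mul, mul_one]

theorem mem_theIdeal {N : ℕ} {f : MvPolynomial (Fin 3) K} :
    f ∈ theIdeal K N ↔ ∀ u ∈ f.support, ∃ s ∈ gens N, s ≤ u := by
  rw [theIdeal_eq]
  exact mem_ideal_span_monomial_image

theorem le_wt (w : Fin 3 → ℕ) (k N : ℕ) (h1 : k ≤ w 0 + w 1) (h2 : k ≤ w 1 + w 2)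
    (h3 : k ≤ w 2 + w 0) (h4 : ∀ i, k ≤ N * w i) : theIdeal K N ≤ wtIdeal K w k := by
  rw [theIdeal_eq, Ideal.span_le]
  rintro _ ⟨s, hs, rfl⟩
  show monomial s (1 : K) ∈ wtIdeal K w k
  rw [monomial_mem_wtIdeal]
  simp only [gens, Set.mem_insert_iff, Set.mem_singleton_iff] at hs
  rcases hs with rfl | rfl | rfl | rfl | rfl | rfl
  · simpa [map_add, Finsupp.weight_single] using h1
  · simpa [map_add, Finsupp.weight_single] using h2
  · simpa [map_add, Finsupp.weight_single] using h3
  · simpa [Finsupp.weight_apply] using h4 0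
  · simpa [Finsupp.weight_apply] using h4 1
  · simpa [Finsupp.weight_apply] using h4 2

theorem theMax_eq : theMax K = wtIdeal K (1 : Fin 3 → ℕ) 1 := span_range_X_eq

theorem theMax_isMaximal : (theMax K).IsMaximal := by
  rw [theMax_eq]
  exact wtIdeal_one_isMaximal

theorem mem_iff_of_X {J : Ideal (MvPolynomial (Fin 3) K)} {f : MvPolynomial (Fin 3) K}
    (hf : f ∉ J) (h : ∀ i, X i * f ∈ J) (g : MvPolynomial (Fin 3) K) :
    g ∈ theMax K ↔ g * f ∈ J := by
  constructor
  · intro hg
    have : theMax K ≤ J.colon {f} := by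
      unfold theMax
      rw [Ideal.span_le]
      rintro _ ⟨i, rfl⟩
      show X i ∈ J.colon {f}
      rw [Submodule.mem_colon_singleton]
      exact h i
    have := this hg
    rw [Submodule.mem_colon_singleton] at this
    exact this
  · intro hg
    by_contra hne
    have h1 := (Ideal.isMaximal_iff.1 (theMax_isMaximal (K := K))).2 (J.colon {f}) g
    have h2 : (1 : MvPolynomial (Fin 3) K) ∈ J.colon {f} := by
      apply h1 _ hne
      · rw [Submodule.mem_colon_singleton]; exact hg
      · unfold theMax
        rw [Ideal.span_le]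
        rintro _ ⟨i, rfl⟩
        show X i ∈ J.colon {f}
        rw [Submodule.mem_colon_singleton]
        exact h i
    rw [Submodule.mem_colon_singleton, one_smul] at h2
    exact hf h2

theorem x01 (N : ℕ) : (X 0 * X 1 : MvPolynomial (Fin 3) K) ∈ theIdeal K N :=
  Ideal.subset_span (by simp)

theorem x12 (N : ℕ) : (X 1 * X 2 : MvPolynomial (Fin 3) K) ∈ theIdeal K N :=
  Ideal.subset_span (by simp)

theorem x20 (N : ℕ) : (X 2 * X 0 : MvPolynomial (Fin 3) K) ∈ theIdeal K N :=
  Ideal.subset_span (by simp)

theorem xpow (N : ℕ) (i : Fin 3) : (X i ^ N : MvPolynomial (Fin 3) K) ∈ theIdeal K N := by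
  fin_cases i
  · exact Ideal.subset_span (by simp)
  · exact Ideal.subset_span (by simp)
  · exact Ideal.subset_span (by simp)

/-- the associated primes of all the powers -/
theorem assoc_pow {N : ℕ} (hN : 4 ≤ N) {k : ℕ} (hk : 1 ≤ k)
    (p : Ideal (MvPolynomial (Fin 3) K)) : IsAssociated (theIdeal K N ^ k) p ↔ p = theMax K := by
  constructor
  · rintro ⟨hp, f, hf⟩
    have hle : theIdeal K N ^ k ≤ p := by
      intro g hg
      rw [hf]
      exact Ideal.mul_mem_right _ _ hg
    have hX : ∀ i, (X i : MvPolynomial (Fin 3) K) ∈ p := fun i =>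
      hp.mem_of_pow_mem _ (hp.mem_of_pow_mem _ (hle (Ideal.pow_mem_pow (xpow N i) k)))
    have : theMax K ≤ p := by
      unfold theMax
      rw [Ideal.span_le]
      rintro _ ⟨i, rfl⟩
      exact hX i
    exact (theMax_isMaximal.eq_of_le hp.ne_top this).symm
  · rintro rfl
    refine ⟨theMax_isMaximal.isPrime, X 0 ^ (N * k - 1), ?_⟩
    apply mem_iff_of_X
    · intro hmem
      have h1 : theIdeal K N ≤ wtIdeal K (![1, N, N] : Fin 3 → ℕ) N := by
        apply le_wt
        · simp
        · simp
        · simp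
        · intro i
          fin_cases i
          · simp
          · show N ≤ N * N
            exact Nat.le_mul_self N
          · show N ≤ N * N
            exact Nat.le_mul_self N
      have h2 := pow_le_wtIdeal h1 k hmem
      rw [X_pow_eq_monomial, monomial_mem_wtIdeal] at h2
      simp only [Finsupp.weight_single, Matrix.cons_val_zero, smul_eq_mul, mul_one] at h2
      rw [mul_comm] at h2
      have : 0 < N * k := Nat.mul_pos (by omega) hk
      omega
    · obtain ⟨l, rfl⟩ : ∃ l, k = l + 1 := ⟨k - 1, by omega⟩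
      have e1 : N * (l + 1) - 1 = N * l + (N - 1) := by
        rw [Nat.mul_succ]; omega
      have e2 : N * (l + 1) - 1 = N * l + (N - 2) + 1 := by
        rw [Nat.mul_succ]; omega
      have hl : (X 0 : MvPolynomial (Fin 3) K) ^ (N * l) ∈ theIdeal K N ^ l := by
        rw [pow_mul]
        exact Ideal.pow_mem_pow (xpow N 0) l
      intro i
      fin_cases i
      · show X 0 * X 0 ^ (N * (l + 1) - 1) ∈ _
        have : (X 0 : MvPolynomial (Fin 3) K) * X 0 ^ (N * (l + 1) - 1) =
            (X 0 ^ N) ^ (l + 1) := by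
          rw [← pow_mul, ← pow_succ', show N * (l + 1) - 1 + 1 = N * (l + 1) by
            have : 0 < N * (l + 1) := Nat.mul_pos (by omega) hk
            omega]
        rw [this]
        exact Ideal.pow_mem_pow (xpow N 0) _
      · show X 1 * X 0 ^ (N * (l + 1) - 1) ∈ _
        have : (X 1 : MvPolynomial (Fin 3) K) * X 0 ^ (N * (l + 1) - 1) =
            X 0 ^ (N * l) * (X 0 * X 1) * X 0 ^ (N - 2) := by
          rw [e2]; ring
        rw [this, pow_succ]
        exact Ideal.mul_mem_right _ _ (Ideal.mul_mem_mul hl (x01 N))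
      · show X 2 * X 0 ^ (N * (l + 1) - 1) ∈ _
        have : (X 2 : MvPolynomial (Fin 3) K) * X 0 ^ (N * (l + 1) - 1) =
            X 0 ^ (N * l) * (X 2 * X 0) * X 0 ^ (N - 2) := by
          rw [e2]; ring
        rw [this, pow_succ]
        exact Ideal.mul_mem_right _ _ (Ideal.mul_mem_mul hl (x20 N))

theorem localV_one {N : ℕ} (hN : 4 ≤ N) : localV (theIdeal K N) (theMax K) = N - 1 := by
  apply sInf_eq_of
  · refine ⟨X 0 ^ (N - 1), ?_, ?_⟩
    · have := (isHomogeneous_X K (0 : Fin 3)).pow (N - 1)
      simpa using this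
    · apply mem_iff_of_X
      · rw [mem_theIdeal, X_pow_eq_monomial, support_monomial_one]
        simp only [Finset.mem_singleton, forall_eq, gens, Set.mem_insert_iff,
          Set.mem_singleton_iff]
        rintro ⟨s, hs, hle⟩
        rcases hs with rfl | rfl | rfl | rfl | rfl | rfl
        · have := hle 1; simp at this
        · have := hle 1; simp at this
        · have := hle 2; simp at this
        · have := hle 0; simp at this; omega
        · have := hle 1; simp at this; omega
        · have := hle 2; simp at this; omega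
      · intro i
        fin_cases i
        · show X 0 * X 0 ^ (N - 1) ∈ _
          rw [← pow_succ', show N - 1 + 1 = N by omega]
          exact xpow N 0
        · show X 1 * X 0 ^ (N - 1) ∈ _
          have : (X 1 : MvPolynomial (Fin 3) K) * X 0 ^ (N - 1) = X 0 * X 1 * X 0 ^ (N - 2) := by
            rw [show N - 1 = N - 2 + 1 by omega]; ring
          rw [this]
          exact Ideal.mul_mem_right _ _ (x01 N)
        · show X 2 * X 0 ^ (N - 1) ∈ _
          have : (X 2 : MvPolynomial (Fin 3) K) * X 0 ^ (N - 1) = X 2 * X 0 * X 0 ^ (N - 2) := by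
            rw [show N - 1 = N - 2 + 1 by omega]; ring
          rw [this]
          exact Ideal.mul_mem_right _ _ (x20 N)
  · rintro d ⟨f, hf, hp⟩
    have hfI : f ∉ theIdeal K N := by
      intro h
      have h1 : (1 : MvPolynomial (Fin 3) K) ∈ theMax K := by
        rw [hp, one_mul]; exact h
      exact (theMax_isMaximal (K := K)).ne_top ((Ideal.eq_top_iff_one _).2 h1)
    have hX : ∀ i, X i * f ∈ theIdeal K N := by
      intro i
      rw [← hp]
      exact Ideal.subset_span ⟨i, rfl⟩
    rw [mem_theIdeal] at hfI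
    push Not at hfI
    obtain ⟨u, hu, hu1⟩ := hfI
    have hdeg := degree_of_mem_support hf hu
    rw [Finsupp.degree_eq_sum, Fin.sum_univ_three] at hdeg
    have key : ∀ i, ∃ s ∈ gens N, s ≤ u + Finsupp.single i 1 := fun i =>
      (mem_theIdeal.1 (hX i)) _ (support_X_mul' i f hu)
    have n01 : u 0 = 0 ∨ u 1 = 0 := by
      by_contra hne
      push Not at hne
      refine hu1 _ (show Finsupp.single 0 1 + Finsupp.single 1 1 ∈ gens N by simp [gens]) ?_
      intro j
      fin_cases j <;> simp <;> omega
    have n12 : u 1 = 0 ∨ u 2 = 0 := by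
      by_contra hne
      push Not at hne
      refine hu1 _ (show Finsupp.single 1 1 + Finsupp.single 2 1 ∈ gens N by simp [gens]) ?_
      intro j
      fin_cases j <;> simp <;> omega
    have n20 : u 2 = 0 ∨ u 0 = 0 := by
      by_contra hne
      push Not at hne
      refine hu1 _ (show Finsupp.single 2 1 + Finsupp.single 0 1 ∈ gens N by simp [gens]) ?_
      intro j
      fin_cases j <;> simp <;> omega
    -- the variable dividing `u`
    obtain ⟨i, hi⟩ : ∃ i : Fin 3, ∀ j, j ≠ i → u j = 0 := by
      by_cases h0 : u 0 = 0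
      · by_cases h1 : u 1 = 0
        · exact ⟨2, by intro j hj; fin_cases j <;> simp_all⟩
        · exact ⟨1, by intro j hj; fin_cases j <;> simp_all⟩
      · exact ⟨0, by intro j hj; fin_cases j <;> simp_all⟩
    obtain ⟨s, hs, hle⟩ := key i
    have h0 := hle 0
    have h1 := hle 1
    have h2 := hle 2
    simp only [gens, Set.mem_insert_iff, Set.mem_singleton_iff] at hs
    fin_cases i
    · have a1 := hi 1 (by decide)
      have a2 := hi 2 (by decide)
      rcases hs with rfl | rfl | rfl | rfl | rfl | rfl <;> simp at h0 h1 h2 <;> omega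
    · have a1 := hi 0 (by decide)
      have a2 := hi 2 (by decide)
      rcases hs with rfl | rfl | rfl | rfl | rfl | rfl <;> simp at h0 h1 h2 <;> omega
    · have a1 := hi 0 (by decide)
      have a2 := hi 1 (by decide)
      rcases hs with rfl | rfl | rfl | rfl | rfl | rfl <;> simp at h0 h1 h2 <;> omega

theorem localV_two {N : ℕ} (hN : 4 ≤ N) : localV (theIdeal K N ^ 2) (theMax K) = 3 := by
  have hle : theIdeal K N ^ 2 ≤ wtIdeal K (1 : Fin 3 → ℕ) (2 * 2) := by
    apply pow_le_wtIdeal
    apply le_wt
    · simp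
    · simp
    · simp
    · intro i; simp; omega
  apply sInf_eq_of
  · refine ⟨X 0 * X 1 * X 2, ?_, ?_⟩
    · have := ((isHomogeneous_X K (0 : Fin 3)).mul (isHomogeneous_X K (1 : Fin 3))).mul
        (isHomogeneous_X K (2 : Fin 3))
      simpa using this
    · apply mem_iff_of_X
      · intro h
        have h1 := hle h
        rw [show (X 0 * X 1 * X 2 : MvPolynomial (Fin 3) K) =
          monomial (Finsupp.single 0 1 + Finsupp.single 1 1 + Finsupp.single 2 1) 1 by
          simp only [X, monomial_mul, mul_one], monomial_mem_wtIdeal, weight_one_eq] at h1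
        simp at h1
      · intro i
        rw [pow_two]
        fin_cases i
        · show X 0 * (X 0 * X 1 * X 2) ∈ _
          rw [show (X 0 * (X 0 * X 1 * X 2) : MvPolynomial (Fin 3) K) =
            (X 0 * X 1) * (X 2 * X 0) by ring]
          exact Ideal.mul_mem_mul (x01 N) (x20 N)
        · show X 1 * (X 0 * X 1 * X 2) ∈ _
          rw [show (X 1 * (X 0 * X 1 * X 2) : MvPolynomial (Fin 3) K) =
            (X 0 * X 1) * (X 1 * X 2) by ring]
          exact Ideal.mul_mem_mul (x01 N) (x12 N)
        · show X 2 * (X 0 * X 1 * X 2) ∈ _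
          rw [show (X 2 * (X 0 * X 1 * X 2) : MvPolynomial (Fin 3) K) =
            (X 1 * X 2) * (X 2 * X 0) by ring]
          exact Ideal.mul_mem_mul (x12 N) (x20 N)
  · rintro d ⟨f, hf, hp⟩
    have hfI : f ∉ theIdeal K N ^ 2 := by
      intro h
      have h1 : (1 : MvPolynomial (Fin 3) K) ∈ theMax K := by
        rw [hp, one_mul]; exact h
      exact (theMax_isMaximal (K := K)).ne_top ((Ideal.eq_top_iff_one _).2 h1)
    have hf0 : f ≠ 0 := by
      rintro rfl
      exact hfI (Ideal.zero_mem _)
    obtain ⟨u, hu⟩ := support_nonempty.2 hf0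
    have hX : X 0 * f ∈ theIdeal K N ^ 2 := by
      rw [← hp]
      exact Ideal.subset_span ⟨0, rfl⟩
    have h1 := hle hX _ (support_X_mul' 0 f hu)
    rw [weight_one_eq, map_add, degree_of_mem_support hf hu] at h1
    simp at h1
    omega

end

/-- For every field `K` and every `N ≥ 4` put `I = (xy, yz, zx, x^N, y^N, z^N)` in `K[x,y,z]` and
`m = (x, y, z)`.  Then `m` is the only associated prime of `I^k` for every `k ≥ 1`, while the local
v-number of `I` at `m` is `N - 1` and that of `I^2` is `3`. -/
theorem result (K : Type*) [Field K] (N : ℕ) (hN : 4 ≤ N) :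
    (∀ k : ℕ, 1 ≤ k → ∀ p : Ideal (MvPolynomial (Fin 3) K),
      IsAssociated (theIdeal K N ^ k) p ↔ p = theMax K) ∧
    localV (theIdeal K N) (theMax K) = N - 1 ∧
    localV (theIdeal K N ^ 2) (theMax K) = 3 :=
  ⟨fun _ hk p => assoc_pow hN hk p, localV_one hN, localV_two hN⟩

end Pool.Agent.Results.MP_a79530_al.LocalVNumberDrops
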